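import Mathlib

set_option autoImplicit false

namespace Pool.Agent.H.MP_28a56a_co

open Finset

abbrev Vec (k D : ℕ) : Type := Fin D → ZMod (2 ^ k)

theorem card_vec (k D : ℕ) : Fintype.card (Vec k D) = 2 ^ (k * D) := by
  simp [pow_mul]

def dl {k D : ℕ} (y : Vec k D) : Vec k D →+ ZMod (2 ^ k) where
  toFun x := x ⬝ᵥ y
  map_zero' := zero_dotProduct y
  map_add' a b := add_dotProduct a b y

theorem perp {k D : ℕ} (L : AddSubgroup (Vec k D)) (Y : Finset (Vec k D))
    (h : ∀ y ∈ Y, ∀ x ∈ L, x ⬝ᵥ y = 0) : Nat.card L * #Y ≤ 2 ^ (k * D) := by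
  classical
  let ψ : AddChar (ZMod (2 ^ k)) ℂ := ZMod.stdAddChar
  have h1 : ∑ x : L, ∑ y : Vec k D, ψ (y ⬝ᵥ x.1) = Fintype.card (Vec k D) := by
    rw [sum_eq_single 0 (fun x _ hx => ?_) (by simp)]
    · simp
    · refine (ψ.compAddMonoidHom (dl x.1)).sum_eq_zero_iff_ne_zero.mpr fun e => hx ?_
      ext i
      have := DFunLike.congr_fun e (Pi.single i 1)
      simp only [AddChar.compAddMonoidHom_apply, dl, AddMonoidHom.coe_mk, ZeroHom.coe_mk,
        single_one_dotProduct, AddChar.zero_apply] at this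
      exact ZMod.injective_stdAddChar (this.trans (AddChar.map_zero_eq_one _).symm)
  have h2 : ∀ y : Vec k D, ∑ x : L, ψ (y ⬝ᵥ x.1) =
      if ψ.compAddMonoidHom ((dl y).comp L.subtype) = 0 then (Fintype.card L : ℂ) else 0 := by
    intro y
    rw [← AddChar.sum_eq_ite]
    exact sum_congr rfl fun x _ => by rw [dotProduct_comm]; rfl
  rw [sum_comm, sum_congr rfl fun y _ => h2 y, ← sum_filter, sum_const, nsmul_eq_mul] at h1
  rw [← card_vec, Nat.card_eq_fintype_card, mul_comm]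
  refine le_trans (Nat.mul_le_mul_right _ (card_le_card fun y hy => ?_))
    (le_of_eq (by exact_mod_cast h1))
  refine mem_filter.mpr ⟨mem_univ _, ?_⟩
  ext x
  have : dl y x.1 = 0 := h y hy x.1 x.2
  simp [this]

theorem two_tors (k : ℕ) : #{z : ZMod (2 ^ k) | z + z = 0} ≤ 2 := by
  refine card_le_card_of_injOn (t := (univ : Finset Bool)) (fun z => decide (z.val = 0))
    (fun _ _ => mem_coe.mpr (mem_univ _))
    fun a ha b hb h => ?_
  have key : ∀ z : ZMod (2 ^ k), z + z = 0 → z.val ≠ 0 → 2 * z.val = 2 ^ k := fun z hz h0 => by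
    have h1 := congrArg ZMod.val hz
    rw [ZMod.val_add, ZMod.val_zero] at h1
    obtain ⟨c, hc⟩ := Nat.dvd_of_mod_eq_zero h1
    have := ZMod.val_lt z
    have c1 : c < 2 := by by_contra h; nlinarith
    interval_cases c <;> omega
  have ha' := (mem_filter.mp ha).2
  have hb' := (mem_filter.mp hb).2
  apply ZMod.val_injective
  simp only [decide_eq_decide] at h
  by_cases h0 : a.val = 0
  · rw [h0, h.mp h0]
  · have := key a ha' h0
    have := key b hb' (mt h.mpr h0)
    omega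

theorem quot_le {k D : ℕ} (L : AddSubgroup (Vec k D)) :
    Nat.card (L ⧸ (AddMonoidHom.id L + AddMonoidHom.id L).range) ≤ 2 ^ D := by
  classical
  change (AddMonoidHom.id L + AddMonoidHom.id L).range.index ≤ _
  rw [AddSubgroup.index_range]
  have := Nat.card_le_card_of_injective
    (fun (x : (AddMonoidHom.id L + AddMonoidHom.id L).ker) (i : Fin D) =>
      (⟨x.1.1 i, mem_filter.mpr ⟨mem_univ _, congrFun (congrArg Subtype.val x.2) i⟩⟩ :
        ({z : ZMod (2 ^ k) | z + z = 0} : Finset _)))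
    (fun a b h => by
      ext i
      exact congrArg Subtype.val (congrFun h i))
  refine this.trans ?_
  rw [Nat.card_fun, Nat.card_eq_fintype_card, Fintype.card_coe, Nat.card_eq_fintype_card,
    Fintype.card_fin]
  exact Nat.pow_le_pow_left (two_tors k) D

theorem rect {k D : ℕ} (A B : Finset (Vec k D)) : #A * #B ≤ 4 * 2 ^ (k * D) ∨
    ∃ X ⊆ A, ∃ Y ⊆ B, (∀ x ∈ X, ∀ y ∈ Y, x ⬝ᵥ y ≠ 0) ∧ #A ≤ 2 * (k * D + 1) * #X ∧
      B.card ≤ 2 * 2 ^ 2 ^ D * #Y := by
  classical
  obtain ⟨L, hL⟩ := Finite.exists_max fun L : AddSubgroup (Vec k D) =>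
    (2 * (k * D + 1) * #{x ∈ A | x ∈ L} : ℤ) - #A * Nat.log 2 (Nat.card L)
  have h1 : #A ≤ 2 * #{x ∈ A | x ∈ L} := by
    have := hL ⊤
    rw [AddSubgroup.card_top, Nat.card_eq_fintype_card, card_vec, Nat.log_pow one_lt_two] at this
    simp only [AddSubgroup.mem_top, filter_true] at this
    push_cast at this
    have h0 : (0 : ℤ) ≤ #A * Nat.log 2 (Nat.card L) := by positivity
    have : ((k : ℤ) * D + 1) * #A ≤ (k * D + 1) * (2 * #{x ∈ A | x ∈ L}) := by
      have : (0 : ℤ) ≤ #A := by positivity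
      linarith
    exact_mod_cast le_of_mul_le_mul_left this (by positivity)
  have h2 : ∀ K < L, #A + 2 * (k * D + 1) * #{x ∈ A | x ∈ K} ≤
      2 * (k * D + 1) * #{x ∈ A | x ∈ L} := by
    intro K hK
    have a1 : Nat.card K * 2 ≤ Nat.card L := by
      obtain ⟨c, hc⟩ := AddSubgroup.card_dvd_of_le hK.le
      have a2 : Nat.card K < Nat.card L := Set.Finite.card_lt_card (Set.toFinite _) hK
      have : 2 ≤ c := by
        by_contra h
        have : c ≤ 1 := by omega
        nlinarith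
      nlinarith
    have a2 := Nat.log_mono_right (b := 2) a1
    rw [Nat.log_mul_base one_lt_two Nat.card_pos.ne'] at a2
    have a3 : (#A : ℤ) * (Nat.log 2 (Nat.card K) + 1 : ℕ) ≤ #A * Nat.log 2 (Nat.card L) :=
      mul_le_mul_of_nonneg_left (by exact_mod_cast a2) (by positivity)
    have := hL K
    push_cast at a3
    zify
    linarith
  by_cases hB : #B ≤ 2 * #{y ∈ B | ∀ x ∈ L, x ⬝ᵥ y = 0}
  · left
    have a1 := perp L {y ∈ B | ∀ x ∈ L, x ⬝ᵥ y = 0} fun y hy => (mem_filter.mp hy).2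
    have a2 : #{x ∈ A | x ∈ L} ≤ Nat.card L := by
      rw [Nat.card_eq_fintype_card, Fintype.card_subtype]
      exact card_le_card fun x hx => by simpa using (mem_filter.mp hx).2
    have a3 := Nat.mul_le_mul h1 hB
    have a4 := Nat.mul_le_mul_right (#{y ∈ B | ∀ x ∈ L, x ⬝ᵥ y = 0}) a2
    linarith
  right
  have hs : ∀ y : Vec k D, ∃ s : ℕ, (¬ ∀ x ∈ L, x ⬝ᵥ y = 0) →
      (¬ ∀ x ∈ L, 2 ^ s * (x ⬝ᵥ y) = 0) ∧ ∀ x ∈ L, 2 ^ (s + 1) * (x ⬝ᵥ y) = 0 := by
    intro y
    have ex : ∃ s : ℕ, ∀ x ∈ L, 2 ^ s * (x ⬝ᵥ y) = 0 := ⟨k, fun x _ => by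
      rw [show (2 : ZMod (2 ^ k)) ^ k = 0 by exact_mod_cast ZMod.natCast_self (2 ^ k), zero_mul]⟩
    refine ⟨Nat.find ex - 1, fun h => ?_⟩
    have h0 : Nat.find ex ≠ 0 := fun e => h (by simpa [e] using Nat.find_spec ex)
    refine ⟨Nat.find_min ex (by omega), ?_⟩
    rw [Nat.sub_add_cancel (by omega)]
    exact Nat.find_spec ex
  choose s hs using hs
  let T : Vec k D → Set (L ⧸ (AddMonoidHom.id L + AddMonoidHom.id L).range) := fun y =>
    {q | ∃ x : L, QuotientAddGroup.mk x = q ∧ 2 ^ s y * (x.1 ⬝ᵥ y) = 0}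
  obtain ⟨B1, hB1, hc, hB2⟩ : ∃ B1 ⊆ B, #B < 2 * #B1 ∧ ∀ y ∈ B1, ¬ ∀ x ∈ L, x ⬝ᵥ y = 0 := by
    obtain ⟨Z, hZ, z1, z2⟩ : ∃ Z ⊆ B, ¬ #B ≤ 2 * #Z ∧ ∀ y ∈ B, (∀ x ∈ L, x ⬝ᵥ y = 0) → y ∈ Z :=
      ⟨_, filter_subset _ _, hB, fun y hy h => mem_filter.mpr ⟨hy, h⟩⟩
    refine ⟨B \ Z, sdiff_subset, ?_, fun y hy h => ?_⟩
    · rw [card_sdiff_of_subset hZ]
      omega
    · rw [mem_sdiff] at hy
      exact hy.2 (z2 y hy.1 h)
  obtain ⟨y0, hy0, hmax⟩ := exists_max_image B1 (fun y => #{z ∈ B1 | T z = T y})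
    (card_pos.mp (by omega))
  let K : AddSubgroup (Vec k D) := L ⊓ ((AddMonoidHom.mulLeft (2 ^ s y0)).comp (dl y0)).ker
  have hK : ∀ x, x ∈ K ↔ x ∈ L ∧ 2 ^ s y0 * (x ⬝ᵥ y0) = 0 := fun x => Iff.rfl
  have hy := hs y0 (hB2 y0 hy0)
  refine ⟨{x ∈ A | x ∈ L ∧ x ∉ K}, filter_subset _ _, {z ∈ B1 | T z = T y0},
    (filter_subset _ _).trans hB1, fun x hx y hy' e => ?_, ?_, ?_⟩
  · obtain ⟨-, x1, x2⟩ := mem_filter.mp hx
    have : QuotientAddGroup.mk (⟨x, x1⟩ : L) ∈ T y := ⟨_, rfl, by rw [e, mul_zero]⟩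
    rw [(mem_filter.mp hy').2] at this
    obtain ⟨x', e1, e2⟩ := this
    obtain ⟨z, hz⟩ := QuotientAddGroup.eq.mp e1
    have hz' : x = x'.1 + (z.1 + z.1) := by
      have := congrArg Subtype.val hz
      change z.1 + z.1 = - x'.1 + x at this
      rw [this]; abel
    refine x2 ((hK x).mpr ⟨x1, ?_⟩)
    have := hy.2 z.1 z.2
    rw [hz', add_dotProduct, add_dotProduct]
    linear_combination e2 + this
  · have a1 := h2 K (lt_of_le_of_ne inf_le_left fun e => hy.1 fun x hx => ((hK x).mp (e ▸ hx)).2)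
    have a2 : #{x ∈ A | x ∈ L} ≤ #{x ∈ A | x ∈ K} + #{x ∈ A | x ∈ L ∧ x ∉ K} := by
      refine le_trans (card_le_card fun x hx => ?_) (card_union_le _ _)
      simp only [mem_filter, mem_union] at hx ⊢
      tauto
    have := Nat.mul_le_mul_left (2 * (k * D + 1)) a2
    linarith
  · have a1 := card_le_mul_card_image_of_maps_to (f := T) (s := B1) (t := B1.image T)
      (fun a ha => mem_image_of_mem _ ha) _ fun b hb => by
        obtain ⟨y, hy, rfl⟩ := mem_image.mp hb
        exact hmax y hy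
    have a2 : #(B1.image T) ≤ 2 ^ 2 ^ D := by
      have := Fintype.ofFinite (L ⧸ (AddMonoidHom.id L + AddMonoidHom.id L).range)
      refine (card_le_univ _).trans ?_
      rw [Fintype.card_set, ← Nat.card_eq_fintype_card]
      exact Nat.pow_le_pow_right two_pos (quot_le L)
    have := Nat.mul_le_mul_left (#{z ∈ B1 | T z = T y0}) a2
    linarith

theorem many {k D : ℕ} (x : Vec k D) : 2 ^ (k * D) ≤ #{y : Vec k D | x ⬝ᵥ y = 0} * 2 ^ k := by
  classical
  have h := AddSubgroup.card_mul_index (dl x).ker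
  rw [AddSubgroup.index_ker, Nat.card_eq_fintype_card (α := Vec k D), card_vec] at h
  rw [← h]
  refine Nat.mul_le_mul ?_ ?_
  · rw [Nat.card_eq_fintype_card, Fintype.card_subtype]
    refine card_le_card fun y hy => mem_filter.mpr ⟨mem_univ _, ?_⟩
    rw [dotProduct_comm]
    exact (mem_filter.mp hy).2
  · exact (AddSubgroup.card_le_card_addGroup _).trans (by simp)

/-- a small subset of `F` meeting every rectangle that contains many elements of `F` -/
theorem hit {V : Type} [Fintype V] [DecidableEq V] (F : Finset (V × V)) (t : ℕ)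
    (ht : 8 * Fintype.card V ≤ 2 ^ t) : ∃ N ⊆ F, 2 * #N ≤ #F ∧
      ∀ X Y : Finset V, Disjoint N (X ×ˢ Y) → #(F ∩ X ×ˢ Y) ≤ t * (#X + #Y) := by
  classical
  let bad : Finset (Finset (V × V)) := F.powerset.filter fun N =>
    ∃ X Y : Finset V, Disjoint N (X ×ˢ Y) ∧ t * (#X + #Y) < #(F ∩ X ×ˢ Y)
  have hb : (bad.card : ℝ) < 2 ^ #F / 2 := by
    have s1 : bad ⊆ ((univ : Finset (Finset V × Finset V)).erase (∅, ∅)).biUnion fun p =>
        if t * (#p.1 + #p.2) < #(F ∩ p.1 ×ˢ p.2) then (F \ p.1 ×ˢ p.2).powerset else ∅ := by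
      intro N hN
      obtain ⟨h1, X, Y, h2, h3⟩ := mem_filter.mp hN
      refine mem_biUnion.mpr ⟨(X, Y), mem_erase.mpr ⟨fun e => ?_, mem_univ _⟩, ?_⟩
      · rw [Prod.mk.injEq] at e
        simp [e.1] at h3
      · rw [if_pos h3, mem_powerset]
        exact subset_sdiff.mpr ⟨mem_powerset.mp h1, h2⟩
    obtain ⟨r, hr⟩ : ∃ r : ℝ, r = 1 / 2 ^ t := ⟨_, rfl⟩
    have r0 : 0 ≤ r := by rw [hr]; positivity
    have s2 : (bad.card : ℝ) ≤ ∑ p ∈ (univ : Finset (Finset V × Finset V)).erase (∅, ∅),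
        2 ^ #F * (r ^ #p.1 * r ^ #p.2) := by
      refine le_trans (Nat.cast_le.mpr ((card_le_card s1).trans card_biUnion_le)) ?_
      push_cast
      refine sum_le_sum fun p _ => ?_
      split_ifs with h
      · rw [card_powerset, ← pow_add, hr, one_div_pow, ← pow_mul, mul_one_div,
          le_div_iff₀ (by positivity)]
        have := card_sdiff_add_card_inter F (p.1 ×ˢ p.2)
        push_cast
        rw [← pow_add]
        exact pow_le_pow_right₀ one_le_two (by omega)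
      · simp only [card_empty, Nat.cast_zero]; positivity
    have s3 : ∑ X : Finset V, r ^ #X = (1 + r) ^ Fintype.card V := by
      have := prod_one_add (f := fun _ : V => r) univ
      simp only [prod_const, card_univ, powerset_univ] at this
      exact this.symm
    have s4 : ∑ p : Finset V × Finset V, r ^ #p.1 * r ^ #p.2 = (1 + r) ^ (2 * Fintype.card V) := by
      rw [two_mul, pow_add, ← s3, sum_mul_sum, Fintype.sum_prod_type]
    have s5 : (1 + r) ^ (2 * Fintype.card V) < 3 / 2 := by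
      have a1 : (1 + r) ^ (2 * Fintype.card V) ≤ Real.exp r ^ (2 * Fintype.card V) :=
        pow_le_pow_left₀ (by positivity) (by linarith [Real.add_one_le_exp r]) _
      rw [← Real.exp_nat_mul] at a1
      have a2 : ((2 * Fintype.card V : ℕ) : ℝ) * r ≤ 1 / 4 := by
        rw [hr, mul_one_div, div_le_div_iff₀ (by positivity) (by positivity)]
        have : ((8 * Fintype.card V : ℕ) : ℝ) ≤ (2 ^ t : ℕ) := Nat.cast_le.mpr ht
        push_cast at this ⊢
        linarith
      have a3 := Real.exp_bound_div_one_sub_of_interval' (x := 1 / 4) (by norm_num) (by norm_num)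
      have := Real.exp_le_exp.mpr a2
      linarith
    rw [← mul_sum] at s2
    have s6 := add_sum_erase univ (fun p : Finset V × Finset V => r ^ #p.1 * r ^ #p.2)
      (mem_univ (∅, ∅))
    simp only [card_empty, pow_zero, mul_one] at s6
    have : (0 : ℝ) < 2 ^ #F := by positivity
    nlinarith
  have hs : 2 ^ #F ≤ 2 * #(F.powerset.filter fun N => 2 * #N ≤ #F) := by
    have a1 := card_filter_add_card_filter_not (s := F.powerset) fun N => 2 * #N ≤ #F
    have a2 : #(F.powerset.filter fun N => ¬ 2 * #N ≤ #F) ≤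
        (F.powerset.filter fun N => 2 * #N ≤ #F).card := by
      refine card_le_card_of_injOn (fun N => F \ N) (fun N hN => ?_) fun N hN M hM e => ?_
      · obtain ⟨h1, h2⟩ := mem_filter.mp hN
        refine mem_filter.mpr ⟨mem_powerset.mpr sdiff_subset, ?_⟩
        rw [card_sdiff_of_subset (mem_powerset.mp h1)]
        omega
      · rw [← Finset.sdiff_sdiff_eq_self (mem_powerset.mp (mem_filter.mp hN).1),
          ← Finset.sdiff_sdiff_eq_self (mem_powerset.mp (mem_filter.mp hM).1)]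
        exact congrArg (F \ ·) e
    rw [card_powerset] at a1
    omega
  obtain ⟨N, h1, h2⟩ := exists_mem_notMem_of_card_lt_card (s := bad)
    (t := F.powerset.filter fun N => 2 * #N ≤ #F) (by
      have : ((2 ^ #F : ℕ) : ℝ) ≤ (2 * #(F.powerset.filter fun N => 2 * #N ≤ #F) : ℕ) :=
        Nat.cast_le.mpr hs
      push_cast at this
      exact_mod_cast (show (bad.card : ℝ) < #(F.powerset.filter fun N => 2 * #N ≤ #F) by linarith))
  obtain ⟨h3, h4⟩ := mem_filter.mp h1
  refine ⟨N, mem_powerset.mp h3, h4, fun X Y h => not_lt.mp fun h' => h2 ?_⟩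
  exact mem_filter.mpr ⟨h3, X, Y, h, h'⟩

end Pool.Agent.H.MP_28a56a_co
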